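import Pool.Agent.X112.LF.Ord

/-!
The joint law of the differences in the tuples `(γ n, γ (n + k 1), …, γ (n + k m))` of zeros with
prescribed index differences, for tuples that are spread out: `|k i - k j| ≥ h` and `k i ≤ h ^ A` with
`h` large.  Unconditional.

After the normalisation the deviations from the mean have, along the zeros, asymptotically the centred
Gaussian law with the covariances `(log k_p + log k_q - log |k_p - k_q|) / (2 π² log h)`, as for the
eigenvalues of large unitary matrices.  If all the distances are of the order of `h`, the deviations at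
the `m + 1` places are asymptotically exchangeable, and each of the `(m + 1)!` orderings occurs equally
often.

Idea of the proof.  Linear combinations of the counts `N(t + 2π k_i / log T)` are approximated in mean
square by prime polynomials with complex coefficients, whose characteristic functions are computed; this
gives the joint law in `t`, uniformly in the pattern, by compactness.  It is carried over to the zeros
without loss, because on windows of bounded normalised length much larger than one the number of
zeros is close to its mean for most `t`, while the deviations at the distances `k_i` do not change.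
-/

set_option autoImplicit false

open Filter MeasureTheory ProbabilityTheory

namespace Pool.Agent.Results.MP_67227b_nt.JointLawAtZeros

/-- multiplicity of `s` as a zero of the Riemann zeta function (order of vanishing at `s`) -/
noncomputable def zmult (s : ℂ) : ℕ := analyticOrderNatAt riemannZeta s

/-- the number of nontrivial zeros of `ζ` with ordinate in `(0, t]`, with multiplicity -/
noncomputable def NZ (t : ℝ) : ℕ :=
  ∑ᶠ s ∈ {s : ℂ | riemannZeta s = 0 ∧ 0 < s.re ∧ s.re < 1 ∧ 0 < s.im ∧ s.im ≤ t}, zmult s

/-- for `n ≥ 1`: the `n`-th positive ordinate `γ n` of a nontrivial zero of `ζ`, the ordinates being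
listed in nondecreasing order and repeated according to multiplicity -/
noncomputable def γ (n : ℕ) : ℝ := sInf {t : ℝ | n ≤ NZ t}

/-- `k = (0, k 1, …, k m)`, any two of these numbers differ by at least `h`, and all are at most `h ^ A` -/
def Spaced {m : ℕ} (A h : ℕ) (k : Fin (m + 1) → ℕ) : Prop :=
  k 0 = 0 ∧ (∀ i j, i ≠ j → (h : ℝ) ≤ |(k i : ℝ) - k j|) ∧ ∀ i, k i ≤ h ^ A

/-- `k = (0, k 1, …, k m)`, any two of these numbers differ by at least `h`, and all are at most `A h` -/
def SpacedLin {m : ℕ} (A h : ℕ) (k : Fin (m + 1) → ℕ) : Prop :=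
  k 0 = 0 ∧ (∀ i j, i ≠ j → (h : ℝ) ≤ |(k i : ℝ) - k j|) ∧ ∀ i, k i ≤ A * h

/-- the deviation of the normalised difference `(γ (n + k i) - γ n) log (γ n) / 2π` from `k i` -/
noncomputable def dev {m : ℕ} (k : Fin (m + 1) → ℕ) (n : ℕ) (i : Fin (m + 1)) : ℝ :=
  (γ (n + k i) - γ n) * Real.log (γ n) / (2 * Real.pi) - k i

/-- the vector of the deviations at the places `k 1, …, k m`, divided by `√(log h)` -/
noncomputable def disp {m : ℕ} (h : ℕ) (k : Fin (m + 1) → ℕ) (n : ℕ) : EuclideanSpace ℝ (Fin m) :=
  WithLp.toLp 2 fun p => dev k n p.succ / Real.sqrt (Real.log h)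

/-- the matrix with the entries `(log k_p + log k_q - log |k_p - k_q|) / (2 π² log h)`, where the
last logarithm is read as zero for `p = q` -/
noncomputable def Sig {m : ℕ} (h : ℕ) (k : Fin (m + 1) → ℕ) : Matrix (Fin m) (Fin m) ℝ :=
  Matrix.of fun p q => (Real.log (k p.succ) + Real.log (k q.succ) - Real.log |(k p.succ : ℝ) - k q.succ|) /
    (2 * Real.pi ^ 2 * Real.log h)

lemma Sig_eq {m : ℕ} (h : ℕ) (k : Fin (m + 1) → ℕ) (h0 : k 0 = 0) :
    Sig h k = X112.LF.Cov (X112.LF.lamk (h : ℝ) (fun i => (k i : ℝ))) := by
  ext p q
  unfold Sig X112.LF.Cov X112.LF.lamk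
  simp only [Matrix.of_apply, h0, Nat.cast_zero, zero_sub, abs_neg, Nat.abs_cast]
  rw [← add_div, ← sub_div, div_div]
  congr 1
  ring

/-- Unconditionally, with `γ n` the ordinates of all the nontrivial zeros in the upper half-plane.
For every `m`, `A ≥ 1` and `ε > 0`:

(1) for every set `B` in `ℝ^m` whose boundary has Lebesgue measure zero, for all large `h`, all spaced
tuples `k` and all large `N`, the number of the `n ≤ N` with `disp h k n ∈ B` is `G(B) N`, up to `ε N`,
where `G` is the centred Gaussian measure with the (positive definite) covariance matrix `Sig h k`;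

(2) for all large `h`, all tuples `k` with `|k i - k j| ≥ h` and `k i ≤ A h` and all large `N`, for every
permutation `σ` the number of the `n ≤ N` for which the `m + 1` deviations `dev k n i` (the first is
zero) are in the order given by `σ` is `N / (m + 1)!`, up to `ε N`. -/
theorem result (m A : ℕ) (hA : 1 ≤ A) (ε : ℝ) (hε : 0 < ε) :
    (∀ B : Set (EuclideanSpace ℝ (Fin m)), volume (frontier B) = 0 →
      ∀ᶠ h : ℕ in atTop, ∀ k : Fin (m + 1) → ℕ, Spaced A h k →
        (Sig h k).PosDef ∧ ∀ᶠ N : ℕ in atTop,
          |({n : ℕ | 1 ≤ n ∧ n ≤ N ∧ disp h k n ∈ B}.ncard : ℝ) -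
            (multivariateGaussian 0 (Sig h k)).real B * N| ≤ ε * N) ∧
    (∀ᶠ h : ℕ in atTop, ∀ k : Fin (m + 1) → ℕ, SpacedLin A h k → ∀ᶠ N : ℕ in atTop,
      ∀ σ : Equiv.Perm (Fin (m + 1)),
        |({n : ℕ | 1 ≤ n ∧ n ≤ N ∧ StrictMono fun i => dev k n (σ i)}.ncard : ℝ) -
          N / ((m + 1).factorial : ℝ)| ≤ ε * N) := by
  refine ⟨fun B hB => ?_, X112.LF.order_law A m hA ε hε⟩
  filter_upwards [X112.LF.ind_law A m hA B hB ε hε] with h hh k hk
  obtain ⟨h1, h2⟩ := hh k hk
  rw [Sig_eq h k hk.1]
  exact ⟨h1, h2⟩

end Pool.Agent.Results.MP_67227b_nt.JointLawAtZeros
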