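import Pool.Agent.TH342.CV.Boxes
import Pool.Agent.H370R2.DirGood
import Pool.Agent.H370R2.Expl1

/-!
# `r`-level correlations among `m` shifted L-functions

No hypothesis is assumed. The weighted `r`-level correlation sum of `r` primitive Dirichlet L-functions
(possibly zeta), shifted by `a_1, …, a_r`, in a window of length `H` is the number of the `r`-tuples
`(x_1, …, x_r)`, `x_j` an ordinate in `(T + a_j, T + a_j + H]` of a simple zero on the critical line of
the `j`-th function, each weighted by `max (0, 1 - d / W)`, where `d` is the diameter of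
`{x_j - a_j}` in units of the mean spacing `2 π / log T`. Its conjectured size is
`W ^ (r - 1) (H / 2 π) log T`.

Among any `m` shifted functions some `r` have a sum of at least
`(C(n, r) + (p m - n) C(n, r - 1)) / C(m, r) - ε` of the conjectured size, for every `n`; here
`p = 0.6725…` is the Montgomery-Taylor constant. For `m` large the constant tends to `p ^ r`.
-/

set_option autoImplicit false

open Filter Topology Complex Finset

namespace Pool.Agent.Results.MP_67227b_nt.LevelsAmongShifts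

open Pool.Agent.TH342.CV (SimpleAt cnt cs cs_card cs_mem simple_finite)
open H370 (GoodL cMTinv)

/-- the Montgomery-Taylor proportion `2 - c_MT⁻¹ = 3/2 - cot(1/√2)/√2 = 0.6725…` -/
noncomputable def p : ℝ := 3 / 2 - Real.cot (1 / Real.sqrt 2) / Real.sqrt 2

/-- the ordinates in `(u, v]` of the simple zeros of `F` on the critical line -/
def ords (F : ℂ → ℂ) (u v : ℝ) : Set ℝ :=
  {x | u < x ∧ x ≤ v ∧ F (1 / 2 + x * I) = 0 ∧ analyticOrderNatAt F (1 / 2 + x * I) = 1}

/-- the tent of height `1` and half-width `W` -/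
noncomputable def tent (W u : ℝ) : ℝ := max 0 (1 - |u| / W)

/-- the diameter of a finite family of real numbers -/
noncomputable def spread {r : ℕ} (y : Fin r → ℝ) : ℝ := ⨆ q : Fin r × Fin r, |y q.1 - y q.2|

/-- the sum, over the tuples of ordinates `x i` of `F i` in `(T + a i, T + a i + H]`, of
`tent W (spread (x - a) log T / 2π)` -/
noncomputable def tupleSum {r : ℕ} (F : Fin r → ℂ → ℂ) (a : Fin r → ℝ) (T H W : ℝ) : ℝ :=
  ∑ᶠ x ∈ {x : Fin r → ℝ | ∀ i, x i ∈ ords (F i) (T + a i) (T + a i + H)},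
    tent W (spread (fun i => x i - a i) * Real.log T / (2 * Real.pi))

/-- the constant `(C(n, r) + (p m - n) C(n, r - 1)) / C(m, r)` -/
noncomputable def cc (m n r : ℕ) : ℝ :=
  (n.choose r + (p * m - n) * n.choose (r - 1)) / m.choose r

lemma p_eq : p = 2 - cMTinv := by
  unfold p cMTinv
  ring

lemma p_num : 0.672497 ≤ p := by
  rw [p_eq]
  have := H370.Expl.cMTinv_num
  norm_num at this ⊢
  linarith

lemma p_le : p ≤ 1 := by
  rw [p_eq]
  have := H370.cMTinv_gt_one
  linarith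

/-! ### The inequality for elementary symmetric functions -/

/-- the elementary symmetric function of degree `r` -/
noncomputable def es {ι : Type*} (s : Finset ι) (f : ι → ℝ) (r : ℕ) : ℝ :=
  ∑ I ∈ s.powersetCard r, ∏ i ∈ I, f i

lemma es_insert {ι : Type*} [DecidableEq ι] {a : ι} {s : Finset ι} (ha : a ∉ s) (f : ι → ℝ) (r : ℕ) :
    es (insert a s) f (r + 1) = es s f (r + 1) + f a * es s f r := by
  unfold es
  rw [Finset.powersetCard_succ_insert ha, Finset.sum_union]
  · congr 1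
    rw [Finset.sum_image, Finset.mul_sum]
    · apply Finset.sum_congr rfl
      intro I hI
      rw [Finset.mem_powersetCard] at hI
      rw [Finset.prod_insert (fun h => ha (hI.1 h))]
    · intro I hI I' hI' h
      rw [Finset.mem_coe, Finset.mem_powersetCard] at hI hI'
      have h1 : I = (insert a I).erase a := (Finset.erase_insert (fun h => ha (hI.1 h))).symm
      have h2 : I' = (insert a I').erase a := (Finset.erase_insert (fun h => ha (hI'.1 h))).symm
      have h3 : insert a I = insert a I' := h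
      rw [h1, h2, h3]
  · rw [Finset.disjoint_left]
    intro I hI hI'
    rw [Finset.mem_powersetCard] at hI
    rw [Finset.mem_image] at hI'
    obtain ⟨I', _, rfl⟩ := hI'
    exact ha (hI.1 (Finset.mem_insert_self a I'))

lemma choose_le (n r : ℕ) : n.choose (r + 1) ≤ n * n.choose r := by
  have h := Nat.choose_succ_right_eq n r
  have h1 : n.choose (r + 1) ≤ n.choose (r + 1) * (r + 1) := Nat.le_mul_of_pos_right _ (Nat.succ_pos r)
  rw [h] at h1
  refine h1.trans ?_
  rw [mul_comm]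
  exact Nat.mul_le_mul_right _ (Nat.sub_le n r)

/-- for numbers `f i` in `[0, 1]` and every `n` -/
lemma symm_ineq {ι : Type*} [DecidableEq ι] (s : Finset ι) (f : ι → ℝ) (h0 : ∀ i ∈ s, 0 ≤ f i)
    (h1 : ∀ i ∈ s, f i ≤ 1) : ∀ r n : ℕ,
    (n.choose (r + 1) : ℝ) + (∑ i ∈ s, f i - n) * n.choose r ≤ es s f (r + 1) := by
  induction s using Finset.induction_on with
  | empty =>
    intro r n
    have h2 : es (∅ : Finset ι) f (r + 1) = 0 := by
      unfold es
      rw [Finset.powersetCard_eq_empty.2 (by simp), Finset.sum_empty]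
    rw [h2, Finset.sum_empty]
    have h3 : (n.choose (r + 1) : ℝ) ≤ n * n.choose r := by exact_mod_cast choose_le n r
    linarith
  | insert a s ha ih =>
    intro r n
    have h0' : ∀ i ∈ s, 0 ≤ f i := fun i hi => h0 i (mem_insert_of_mem hi)
    have ih' := ih h0' (fun i hi => h1 i (mem_insert_of_mem hi))
    have a0 := h0 a (mem_insert_self a s)
    have a1 := h1 a (mem_insert_self a s)
    have hS : 0 ≤ ∑ i ∈ s, f i := Finset.sum_nonneg h0'
    have e0 : es s f 0 = 1 := by
      unfold es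
      rw [Finset.powersetCard_zero, Finset.sum_singleton, Finset.prod_empty]
    have i1 := ih' r n
    have i2 : (n.choose (r + 1) : ℝ) + (∑ i ∈ s, f i + 1 - n) * n.choose r ≤
        es s f (r + 1) + es s f r := by
      rcases Nat.eq_zero_or_pos n with hn | hn
      · subst hn
        rcases Nat.eq_zero_or_pos r with hr | hr
        · subst hr
          have := ih' 0 0
          rw [e0]
          simp at this ⊢
          linarith
        · obtain ⟨r', rfl⟩ : ∃ r', r = r' + 1 := ⟨r - 1, by omega⟩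
          have u1 := ih' (r' + 1) 0
          have u2 := ih' r' 0
          have u3 : (0 : ℝ) ≤ (∑ i ∈ s, f i) * (Nat.choose 0 r' : ℝ) := by positivity
          have u4 : Nat.choose 0 (r' + 1) = 0 := by simp
          have u5 : Nat.choose 0 (r' + 1 + 1) = 0 := by simp
          rw [u4, u5] at u1 ⊢
          rw [u4] at u2
          push_cast at u1 u2 ⊢
          linarith
      · obtain ⟨n', rfl⟩ : ∃ n', n = n' + 1 := ⟨n - 1, by omega⟩
        rcases Nat.eq_zero_or_pos r with hr | hr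
        · subst hr
          have := ih' 0 n'
          rw [e0]
          simp at this ⊢
          linarith
        · obtain ⟨r', rfl⟩ : ∃ r', r = r' + 1 := ⟨r - 1, by omega⟩
          have u1 := ih' (r' + 1) n'
          have u2 := ih' r' n'
          have u4 : (n' + 1).choose (r' + 1) = n'.choose r' + n'.choose (r' + 1) :=
            Nat.choose_succ_succ n' r'
          have u5 : (n' + 1).choose (r' + 1 + 1) = n'.choose (r' + 1) + n'.choose (r' + 1 + 1) :=
            Nat.choose_succ_succ n' (r' + 1)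
          rw [u4, u5]
          push_cast
          have u6 : (n'.choose (r' + 1) + n'.choose (r' + 1 + 1) +
              (∑ i ∈ s, f i + 1 - (n' + 1)) * (n'.choose r' + n'.choose (r' + 1)) : ℝ) =
              (n'.choose (r' + 1 + 1) + (∑ i ∈ s, f i - n') * n'.choose (r' + 1)) +
              (n'.choose (r' + 1) + (∑ i ∈ s, f i - n') * n'.choose r') := by ring
          rw [u6]
          linarith
    rw [es_insert ha, sum_insert ha]
    have key : (n.choose (r + 1) : ℝ) + (f a + ∑ i ∈ s, f i - n) * n.choose r =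
        (1 - f a) * ((n.choose (r + 1) : ℝ) + (∑ i ∈ s, f i - n) * n.choose r) +
        f a * ((n.choose (r + 1) : ℝ) + (∑ i ∈ s, f i + 1 - n) * n.choose r) := by ring
    have key2 : es s f (r + 1) + f a * es s f r =
        (1 - f a) * es s f (r + 1) + f a * (es s f (r + 1) + es s f r) := by ring
    rw [key, key2]
    exact add_le_add (mul_le_mul_of_nonneg_left i1 (sub_nonneg.2 a1)) (mul_le_mul_of_nonneg_left i2 a0)

/-! ### Tents and spreads -/

lemma tent_nonneg (W u : ℝ) : 0 ≤ tent W u := le_max_left _ _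

lemma tent_mono {V W u : ℝ} (hV : 0 < V) (hVW : V ≤ W) : tent V u ≤ tent W u := by
  unfold tent
  apply max_le_max le_rfl
  have : |u| / W ≤ |u| / V := div_le_div_of_nonneg_left (abs_nonneg _) hV hVW
  linarith

lemma spread_attained {r : ℕ} (hr : 1 ≤ r) (y : Fin r → ℝ) : ∃ i j, spread y = y i - y j := by
  have : Nonempty (Fin r) := ⟨⟨0, hr⟩⟩
  obtain ⟨⟨i, j⟩, h⟩ := exists_eq_ciSup_of_finite (f := fun q : Fin r × Fin r => |y q.1 - y q.2|)
  unfold spread
  rw [← h]
  rcases le_total (y i) (y j) with h1 | h1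
  · exact ⟨j, i, by simp only; rw [abs_of_nonpos (by linarith)]; ring⟩
  · exact ⟨i, j, by simp only; rw [abs_of_nonneg (by linarith)]⟩

lemma count_shift (s t : ℝ) (J M : ℕ) :
    (((range M).filter (fun k : ℕ => s ≤ (k : ℝ) + 1 ∧ (k : ℝ) + 1 < J + t)).card : ℝ) ≤
      max 0 ((J : ℝ) + 1 - (s - t)) := by
  have h1 : ((range M).filter (fun k : ℕ => s ≤ (k : ℝ) + 1 ∧ (k : ℝ) + 1 < J + t)).card ≤
      (Finset.Ico ⌈s - 1⌉ ⌈(J : ℝ) + t - 1⌉).card := by
    apply Finset.card_le_card_of_injOn (fun k : ℕ => (k : ℤ))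
    · intro k hk
      rw [Finset.mem_coe, Finset.mem_filter] at hk
      rw [Finset.mem_coe, Finset.mem_Ico]
      refine ⟨Int.ceil_le.2 ?_, Int.lt_ceil.2 ?_⟩
      · push_cast; linarith [hk.2.1]
      · push_cast; linarith [hk.2.2]
    · intro k _ l _ h
      exact Int.ofNat.inj h
  rw [Int.card_Ico] at h1
  have h2 : (((⌈(J : ℝ) + t - 1⌉ - ⌈s - 1⌉).toNat : ℕ) : ℝ) ≤ max 0 ((J : ℝ) + 1 - (s - t)) := by
    rcases le_total (⌈(J : ℝ) + t - 1⌉ - ⌈s - 1⌉) 0 with h | h
    · rw [Int.toNat_eq_zero.2 h]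
      simp
    · apply le_max_of_le_right
      have h3 : (((⌈(J : ℝ) + t - 1⌉ - ⌈s - 1⌉).toNat : ℤ) : ℝ) =
          ((⌈(J : ℝ) + t - 1⌉ - ⌈s - 1⌉ : ℤ) : ℝ) := by rw [Int.toNat_of_nonneg h]
      rw [Int.cast_natCast] at h3
      rw [h3]
      push_cast
      have h4 := Int.ceil_lt_add_one ((J : ℝ) + t - 1)
      have h5 := Int.le_ceil (s - 1)
      linarith
  exact (Nat.cast_le.2 h1).trans h2

lemma count_spread {r : ℕ} (hr : 1 ≤ r) (y : Fin r → ℝ) (T : ℝ) {w : ℝ} (hw : 0 < w) (J M : ℕ) :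
    (((range M).filter (fun k : ℕ => ∀ i, ((k : ℝ) + 1 - J) * w < y i - T ∧
      y i - T ≤ ((k : ℝ) + 1) * w)).card : ℝ) ≤ max 0 ((J : ℝ) + 1 - spread y / w) := by
  obtain ⟨i, j, hij⟩ := spread_attained hr y
  have h := count_shift ((y i - T) / w) ((y j - T) / w) J M
  have e : (y i - T) / w - (y j - T) / w = spread y / w := by rw [hij]; ring
  rw [e] at h
  refine le_trans ?_ h
  apply Nat.cast_le.2
  apply Finset.card_le_card
  intro k hk
  rw [Finset.mem_filter] at hk ⊢
  refine ⟨hk.1, ?_, ?_⟩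
  · rw [div_le_iff₀ hw]
    exact (hk.2 i).2
  · have h1 := (hk.2 j).1
    rw [← lt_div_iff₀ hw] at h1
    linarith

/-! ### Blocks of cells -/

/-- the cells of the block with index `k` -/
noncomputable def blk (N J k : ℕ) : Finset ℕ := (range N).filter (fun c => c ≤ k ∧ k < c + J)

lemma blk_card (N J k : ℕ) : (blk N J k).card ≤ J := by
  have : blk N J k ⊆ Ico (k + 1 - J) (k + 1) := by
    intro c hc
    simp only [blk, mem_filter, mem_range] at hc
    rw [mem_Ico]
    omega
  have h := card_le_card this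
  rw [Nat.card_Ico] at h
  omega

lemma blk_sum (N J : ℕ) (f : ℕ → ℝ) :
    ∑ k ∈ range (N + J), ∑ c ∈ blk N J k, f c = J * ∑ c ∈ range N, f c := by
  unfold blk
  simp only [Finset.sum_filter]
  rw [Finset.sum_comm, Finset.mul_sum]
  apply Finset.sum_congr rfl
  intro c hc
  rw [mem_range] at hc
  rw [← Finset.sum_filter, Finset.sum_const, nsmul_eq_mul]
  congr 1
  have : (range (N + J)).filter (fun k => c ≤ k ∧ k < c + J) = Ico c (c + J) := by
    ext k
    simp only [mem_filter, mem_range, mem_Ico]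
    omega
  rw [this, Nat.card_Ico]
  congr 1
  omega

/-- the union of the cells -/
lemma cells_sum {F : ℂ → ℂ} (hF : GoodL F) {A w H : ℝ} (hA : 1 ≤ A) (hw : 0 < w) {N : ℕ}
    (hN : N * w ≤ H) (φ : ℝ → ℝ) (hφ : ∀ x, 0 ≤ φ x) :
    ∑ c ∈ range N, ∑ x ∈ cs F (A + c * w) (A + (c + 1) * w), φ x ≤ ∑ x ∈ cs F A (A + H), φ x := by
  classical
  have hmem : ∀ (u v x : ℝ), 1 ≤ u → (x ∈ cs F u v ↔ u < x ∧ x ≤ v ∧ SimpleAt F x) := by
    intro u v x hu
    unfold cs
    rw [dif_pos (simple_finite hF hu)]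
    simp
  have hdisj : ((range N : Finset ℕ) : Set ℕ).PairwiseDisjoint
      (fun c : ℕ => cs F (A + c * w) (A + (c + 1) * w)) := by
    intro k _ l _ hkl
    rw [Function.onFun, Finset.disjoint_left]
    intro x hx hx'
    have h1 := cs_mem hx
    have h2 := cs_mem hx'
    rcases lt_or_gt_of_ne hkl with h | h
    · have h3 : (k : ℝ) + 1 ≤ l := by exact_mod_cast h
      have := mul_le_mul_of_nonneg_right h3 hw.le
      linarith [h1.2.1, h2.1]
    · have h3 : (l : ℝ) + 1 ≤ k := by exact_mod_cast h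
      have := mul_le_mul_of_nonneg_right h3 hw.le
      linarith [h2.2.1, h1.1]
  rw [← Finset.sum_biUnion hdisj]
  apply Finset.sum_le_sum_of_subset_of_nonneg
  · intro x hx
    rw [mem_biUnion] at hx
    obtain ⟨c, hc, hx⟩ := hx
    rw [mem_range] at hc
    have h1 := cs_mem hx
    have h2 : (0 : ℝ) ≤ c * w := by positivity
    have h3 : (c : ℝ) + 1 ≤ N := by exact_mod_cast hc
    have h4 := mul_le_mul_of_nonneg_right h3 hw.le
    rw [hmem _ _ _ hA]
    exact ⟨by linarith [h1.1], by linarith [h1.2.1], h1.2.2⟩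
  · intro x _ _
    exact hφ x

open Classical in
lemma blk_cnt {F : ℂ → ℂ} (hF : GoodL F) {A w H : ℝ} (hA : 1 ≤ A) (hw : 0 < w) {N : ℕ} (J k : ℕ)
    (hN : N * w ≤ H) :
    ∑ c ∈ blk N J k, (cnt F (A + c * w) (A + (c + 1) * w) : ℝ) ≤
      (((cs F A (A + H)).filter (fun x => ((k : ℝ) + 1 - J) * w < x - A ∧
        x - A ≤ ((k : ℝ) + 1) * w)).card : ℝ) := by
  have h := cells_sum hF hA hw hN
    (fun x => if (((k : ℝ) + 1 - J) * w < x - A ∧ x - A ≤ ((k : ℝ) + 1) * w) then (1 : ℝ) else 0)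
    (fun x => by split_ifs <;> norm_num)
  rw [← Finset.sum_filter, Finset.sum_const, nsmul_eq_mul, mul_one] at h
  refine le_trans ?_ h
  have h1 : ∑ c ∈ blk N J k, (cnt F (A + c * w) (A + (c + 1) * w) : ℝ) ≤
      ∑ c ∈ blk N J k, ∑ x ∈ cs F (A + c * w) (A + (c + 1) * w),
        (if (((k : ℝ) + 1 - J) * w < x - A ∧ x - A ≤ ((k : ℝ) + 1) * w) then (1 : ℝ) else 0) := by
    apply Finset.sum_le_sum
    intro c hc
    unfold blk at hc
    rw [Finset.mem_filter] at hc
    rw [← cs_card, Finset.cast_card]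
    apply Finset.sum_le_sum
    intro x hx
    have hx' := cs_mem hx
    rw [if_pos]
    have h2 : (k : ℝ) + 1 - J ≤ c := by
      have : (k : ℝ) + 1 ≤ c + J := by exact_mod_cast hc.2.2
      linarith
    have h3 : (c : ℝ) ≤ k := by exact_mod_cast hc.2.1
    have h4 := mul_le_mul_of_nonneg_right h2 hw.le
    have h5 := mul_le_mul_of_nonneg_right h3 hw.le
    exact ⟨by linarith [hx'.1], by linarith [hx'.2.1]⟩
  refine h1.trans ?_
  apply Finset.sum_le_sum_of_subset_of_nonneg
  · exact Finset.filter_subset _ _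
  · intro c _ _
    apply Finset.sum_nonneg
    intro x _
    split_ifs <;> norm_num

/-- the tuple sums as finite sums -/
noncomputable def tS {r : ℕ} (F : Fin r → ℂ → ℂ) (a : Fin r → ℝ) (T H W : ℝ) : ℝ :=
  ∑ x ∈ Fintype.piFinset (fun i => cs (F i) (T + a i) (T + a i + H)),
    tent W (spread (fun i => x i - a i) * Real.log T / (2 * Real.pi))

lemma cs_coe {F : ℂ → ℂ} (hF : GoodL F) {u v : ℝ} (hu : 1 ≤ u) : ords F u v = ↑(cs F u v) := by
  unfold cs
  rw [dif_pos (simple_finite hF hu)]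
  rw [Set.Finite.coe_toFinset]
  rfl

lemma tupleSum_eq {r : ℕ} {F : Fin r → ℂ → ℂ} (hF : ∀ i, GoodL (F i)) {a : Fin r → ℝ} {T H W : ℝ}
    (hT : 1 ≤ T) (ha : ∀ i, 0 ≤ a i) : tupleSum F a T H W = tS F a T H W := by
  unfold tupleSum tS
  have : {x : Fin r → ℝ | ∀ i, x i ∈ ords (F i) (T + a i) (T + a i + H)} =
      ↑(Fintype.piFinset (fun i => cs (F i) (T + a i) (T + a i + H))) := by
    ext x
    simp only [Set.mem_ofPred_eq, Finset.mem_coe, Fintype.mem_piFinset]
    apply forall_congr'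
    intro i
    rw [cs_coe (hF i) (by linarith [ha i]), Finset.mem_coe]
  rw [this, finsum_mem_coe_finset]

lemma tS_nonneg {r : ℕ} (F : Fin r → ℂ → ℂ) (a : Fin r → ℝ) (T H W : ℝ) : 0 ≤ tS F a T H W :=
  Finset.sum_nonneg fun _ _ => tent_nonneg _ _

open Classical in
/-- the tuples of cells of the blocks are bounded by the tuple sum -/
lemma blk_tuples {r : ℕ} (hr : 1 ≤ r) {F : Fin r → ℂ → ℂ} (hF : ∀ i, GoodL (F i)) {a : Fin r → ℝ}
    {T H g W : ℝ} (hT : 10 ≤ T) (ha : ∀ i, 0 ≤ a i) (hg : 0 < g) {N J : ℕ}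
    (hN : N * (g * (2 * Real.pi / Real.log T)) ≤ H) (hW : ((J : ℝ) + 1) * g ≤ W) :
    ∑ k ∈ range (N + J), ∏ i, ∑ c ∈ blk N J k,
      (cnt (F i) (T + a i + c * (g * (2 * Real.pi / Real.log T)))
        (T + a i + (c + 1) * (g * (2 * Real.pi / Real.log T))) : ℝ) ≤
      ((J : ℝ) + 1) * tS F a T H W := by
  have hpi := Real.pi_pos
  have hlog : 0 < Real.log T := Real.log_pos (by linarith)
  set w : ℝ := g * (2 * Real.pi / Real.log T) with hw
  have hw0 : 0 < w := by positivity
  have hJ1 : (0 : ℝ) < (J : ℝ) + 1 := by positivity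
  have hJg : 0 < ((J : ℝ) + 1) * g := by positivity
  set P : Finset (Fin r → ℝ) := Fintype.piFinset (fun i => cs (F i) (T + a i) (T + a i + H)) with hP
  have e1 : ∀ k ∈ range (N + J), ∏ i, ∑ c ∈ blk N J k,
      (cnt (F i) (T + a i + c * w) (T + a i + (c + 1) * w) : ℝ) ≤
      ∑ x ∈ P, (if (∀ i, ((k : ℝ) + 1 - J) * w < (x i - a i) - T ∧
        (x i - a i) - T ≤ ((k : ℝ) + 1) * w) then (1 : ℝ) else 0) := by
    intro k _
    have h1 : ∏ i, ∑ c ∈ blk N J k,
        (cnt (F i) (T + a i + c * w) (T + a i + (c + 1) * w) : ℝ) ≤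
        ∏ i, (((cs (F i) (T + a i) (T + a i + H)).filter (fun x => ((k : ℝ) + 1 - J) * w < x - (T + a i) ∧
        x - (T + a i) ≤ ((k : ℝ) + 1) * w)).card : ℝ) := by
      apply Finset.prod_le_prod
      · intro i _
        exact Finset.sum_nonneg fun c _ => Nat.cast_nonneg _
      · intro i _
        exact blk_cnt (hF i) (by linarith [ha i]) hw0 J k hN
    refine h1.trans ?_
    rw [← Nat.cast_prod, ← Fintype.card_piFinset, ← Finset.sum_filter, Finset.sum_const, nsmul_eq_mul,
      mul_one]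
    apply Nat.cast_le.2
    apply Finset.card_le_card
    intro x hx
    rw [Fintype.mem_piFinset] at hx
    rw [Finset.mem_filter, hP, Fintype.mem_piFinset]
    refine ⟨fun i => (Finset.mem_filter.1 (hx i)).1, fun i => ?_⟩
    have h2 := (Finset.mem_filter.1 (hx i)).2
    exact ⟨by linarith [h2.1], by linarith [h2.2]⟩
  refine (Finset.sum_le_sum e1).trans ?_
  rw [Finset.sum_comm]
  unfold tS
  rw [Finset.mul_sum]
  apply Finset.sum_le_sum
  intro x _
  rw [← Finset.sum_filter, Finset.sum_const, nsmul_eq_mul, mul_one]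
  refine (count_spread hr (fun i => x i - a i) T hw0 J (N + J)).trans ?_
  refine le_trans ?_ (mul_le_mul_of_nonneg_left (tent_mono hJg hW) hJ1.le)
  unfold tent
  rw [mul_max_of_nonneg _ _ hJ1.le, mul_zero]
  apply max_le_max le_rfl
  obtain ⟨i, j, hij⟩ := spread_attained hr (fun i => x i - a i)
  have hs0 : 0 ≤ spread (fun i => x i - a i) := by
    unfold spread
    exact Real.iSup_nonneg (fun q => abs_nonneg _)
  rw [abs_of_nonneg (by positivity)]
  apply le_of_eq
  rw [hw]
  field_simp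

lemma prod_emb {m r : ℕ} {I : Finset (Fin m)} (h : I.card = r) (g : Fin m → ℝ) :
    ∏ i ∈ I, g i = ∏ j : Fin r, g (I.orderEmbOfFin h j) := by
  have h1 := Finset.prod_map univ (I.orderEmbOfFin h).toEmbedding g
  rw [Finset.map_orderEmbOfFin_univ] at h1
  exact h1

/-- the correlations among `m` shifts -/
theorem main (m n r : ℕ) (hr : 1 ≤ r) (hrm : r ≤ m) {ε : ℝ} (hε : 0 < ε) :
    ∃ L δ η : ℝ, 0 < L ∧ 0 < δ ∧ δ < 1 ∧ 0 < η ∧
    ∀ F : Fin m → ℂ → ℂ, (∀ i, GoodL (F i)) → ∃ T₀ : ℝ, 10 ≤ T₀ ∧ ∀ T : ℝ, T₀ ≤ T → ∀ H : ℝ,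
      T ^ (1 - δ) ≤ H → H ≤ T → ∀ a : Fin m → ℝ, (∀ i, 0 ≤ a i ∧ a i ≤ T ^ (1 + δ)) →
      ∀ W : ℝ, L ≤ W → W ≤ η * (H / (2 * Real.pi) * Real.log T) →
        ∃ k : Fin r → Fin m, StrictMono k ∧
          (cc m n r - ε) * (W ^ (r - 1) * (H / (2 * Real.pi) * Real.log T)) ≤
            tS (fun j => F (k j)) (fun j => a (k j)) T H W := by
  classical
  obtain ⟨r, rfl⟩ : ∃ r', r = r' + 1 := ⟨r - 1, by omega⟩
  have hpi := Real.pi_pos
  have hp0 : 0 < p := by linarith [p_num]
  have hp1 := p_le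
  have hm0 : (0 : ℝ) ≤ m := Nat.cast_nonneg m
  set b : ℝ := (n.choose r : ℝ) with hb
  have hb0 : 0 ≤ b := Nat.cast_nonneg _
  set A : ℝ := n * b - n.choose (r + 1) with hA
  have hA0 : 0 ≤ A := by
    have : (n.choose (r + 1) : ℝ) ≤ n * n.choose r := by exact_mod_cast choose_le n r
    rw [hA, hb]; linarith
  set Cm : ℝ := (m.choose (r + 1) : ℝ) with hCm
  have hCm0 : 0 < Cm := by
    rw [hCm]
    exact_mod_cast Nat.choose_pos hrm
  set C : ℝ := b * m * p - A with hC
  have hcc : cc m n (r + 1) = C / Cm := by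
    unfold cc
    rw [Nat.add_sub_cancel, hC, hA, hCm, hb]
    congr 1
    ring
  set c1 : ℝ := 2 * b * m + A with hc1
  have hc10 : 0 ≤ c1 := by positivity
  set D : ℝ := c1 + (r + 2) * b * m + 1 with hD
  have hD0 : 0 < D := by positivity
  set e : ℝ := min (1 / 2) (ε * Cm / (2 * D)) with he
  have he0 : 0 < e := by rw [he]; positivity
  have he1 : e ≤ 1 / 2 := min_le_left _ _
  have he2 : e * D ≤ ε * Cm / 2 := by
    have h1 : e ≤ ε * Cm / (2 * D) := min_le_right _ _
    rw [le_div_iff₀ (by positivity)] at h1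
    linarith
  obtain ⟨g, hg0, d0, hd0, hd01, hcore⟩ := Pool.Agent.TH342.CV.core he0 (by linarith : e ≤ 1)
  set d : ℝ := d0 / 2 with hd
  have hdpos : 0 < d := by rw [hd]; positivity
  have hd1 : d < 1 / 2 := by rw [hd]; linarith
  have hd0d : d0 = 2 * d := by rw [hd]; ring
  refine ⟨3 * g / e, d, e / 2, by positivity, hdpos, by linarith, by positivity, fun F hF => ?_⟩
  choose T2 hT2 hci using fun i => hcore (F i) (hF i)
  have htop : Tendsto (fun T : ℝ => T ^ d) atTop atTop := tendsto_rpow_atTop hdpos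
  obtain ⟨T3, hT3⟩ := (htop.eventually_ge_atTop 2).exists_forall_of_atTop
  have htop2 : Tendsto (fun T : ℝ => T ^ (1 - 2 * d)) atTop atTop :=
    tendsto_rpow_atTop (by linarith)
  obtain ⟨T4, hT4⟩ := (htop2.eventually_ge_atTop
    (max (g * (2 * Real.pi)) (g * (2 * Real.pi) / e))).exists_forall_of_atTop
  set TS : ℝ := ∑ i, T2 i with hTS
  refine ⟨max TS (max (max T3 T4) 10), (le_max_right _ _).trans (le_max_right _ _),
    fun T hTT H hH1 hH2 a ha W hW1 hW2 => ?_⟩
  have hTTS : TS ≤ T := (le_max_left _ _).trans hTT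
  have hTT2 : ∀ i, T2 i ≤ T := by
    intro i
    refine le_trans ?_ hTTS
    exact Finset.single_le_sum (f := T2) (fun j _ => by linarith [hT2 j]) (Finset.mem_univ i)
  have hTd := hT3 T ((((le_max_left _ _).trans (le_max_left _ _)).trans (le_max_right _ _)).trans
    hTT)
  have hTd2 := hT4 T ((((le_max_right _ _).trans (le_max_left _ _)).trans (le_max_right _ _)).trans
    hTT)
  have hT10 : 10 ≤ T := ((le_max_right _ _).trans (le_max_right _ _)).trans hTT
  have hT0 : 0 < T := by linarith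
  have hlog1 : 1 ≤ Real.log T := by
    rw [Real.le_log_iff_exp_le hT0]
    have := Real.exp_one_lt_d9
    linarith
  have hlog : 0 < Real.log T := by linarith
  set σ : ℝ := 2 * Real.pi / Real.log T with hσ
  have hσ0 : 0 < σ := by positivity
  set w : ℝ := g * σ with hw
  have hw0 : 0 < w := by positivity
  have hwle : w ≤ g * (2 * Real.pi) := by
    rw [hw, hσ]
    apply mul_le_mul_of_nonneg_left _ hg0.le
    exact div_le_self (by positivity) hlog1
  have hH0 : 0 < H := (Real.rpow_pos_of_pos hT0 _).trans_le hH1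
  have hpd : T ^ (1 - d) = T ^ (1 - 2 * d) * T ^ d := by
    rw [← Real.rpow_add hT0]; congr 1; ring
  have hHbig : 2 * T ^ (1 - 2 * d) ≤ H := by
    refine le_trans ?_ hH1
    rw [hpd, mul_comm]
    exact mul_le_mul_of_nonneg_left hTd (Real.rpow_nonneg hT0.le _)
  have hX1 : g * (2 * Real.pi) ≤ T ^ (1 - 2 * d) := (le_max_left _ _).trans hTd2
  have hX2 : g * (2 * Real.pi) / e ≤ T ^ (1 - 2 * d) := (le_max_right _ _).trans hTd2
  set N : ℕ := ⌊H / w⌋₊ with hN
  have hNle : (N : ℝ) * w ≤ H := by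
    have := Nat.floor_le (by positivity : 0 ≤ H / w)
    rwa [← hN, le_div_iff₀ hw0] at this
  have hNge : H < ((N : ℝ) + 1) * w := by
    have := Nat.lt_floor_add_one (H / w)
    rwa [← hN, div_lt_iff₀ hw0] at this
  have hNge' : H - w ≤ N * w := by
    have : ((N : ℝ) + 1) * w = N * w + w := by ring
    linarith
  have hN1 : T ^ (1 - d0) ≤ N * w := by
    rw [hd0d]
    linarith
  have hN2 : (N : ℝ) * w ≤ T := hNle.trans hH2
  set K : ℝ := (1 + e) * g with hK
  have hK0 : 0 < K := by rw [hK]; positivity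
  have hgK : g ≤ K := by
    rw [hK]
    have : 0 ≤ e * g := by positivity
    linarith
  set X : ℝ := H / (2 * Real.pi) * Real.log T with hX
  have hXσ : X = H / σ := by rw [hX, hσ]; field_simp
  have hX0 : 0 < X := by positivity
  -- the number of cells
  have hgN : (1 - e) * X ≤ g * N := by
    have h2 : H / σ - g ≤ g * N := by
      have h3 : (H - w) / σ ≤ N * w / σ := div_le_div_of_nonneg_right hNge' hσ0.le
      have h4 : (H - w) / σ = H / σ - g := by rw [hw]; field_simp
      have h5 : N * w / σ = g * N := by rw [hw]; field_simp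
      linarith
    have h6 : g ≤ e * (H / σ) := by
      rw [mul_div_assoc', le_div_iff₀ hσ0]
      rw [div_le_iff₀ he0] at hX2
      have h7 : e * (2 * T ^ (1 - 2 * d)) ≤ e * H := mul_le_mul_of_nonneg_left hHbig he0.le
      have h8 : 0 ≤ e * T ^ (1 - 2 * d) := mul_nonneg he0.le (Real.rpow_nonneg hT0.le _)
      have h9 : g * σ = w := rfl
      rw [h9]
      linarith
    rw [hXσ]
    have h7 : (1 - e) * (H / σ) = H / σ - e * (H / σ) := by ring
    rw [h7]
    linarith
  -- the length of the blocks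
  have hWg : 3 * g / e ≤ W := hW1
  have hWe : 3 * g ≤ e * W := by
    rw [div_le_iff₀ he0] at hWg
    linarith
  have hW0 : 0 < W := lt_of_lt_of_le (by positivity) hW1
  set J : ℕ := ⌊W / g⌋₊ - 1 with hJ
  have hfl : 3 ≤ ⌊W / g⌋₊ := by
    apply Nat.le_floor
    rw [le_div_iff₀ hg0]
    push_cast
    nlinarith
  have hJ1 : ((J : ℝ) + 1) = ⌊W / g⌋₊ := by
    have h2 : J + 1 = ⌊W / g⌋₊ := by omega
    exact_mod_cast congrArg (Nat.cast : ℕ → ℝ) h2
  have hJW : ((J : ℝ) + 1) * g ≤ W := by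
    rw [hJ1, ← le_div_iff₀ hg0]
    exact Nat.floor_le (by positivity)
  have hJW2 : W ≤ ((J : ℝ) + 2) * g := by
    have h3 := Nat.lt_floor_add_one (W / g)
    rw [← hJ1, div_lt_iff₀ hg0] at h3
    linarith
  have hJpos : (2 : ℝ) ≤ J := by
    have h2 : 2 ≤ J := by omega
    exact_mod_cast h2
  have hJ0 : (0 : ℝ) < J := by linarith
  -- the trivial case
  rcases le_or_gt (cc m n (r + 1) - ε) 0 with hneg | hpos
  · refine ⟨Fin.castLE hrm, Fin.strictMono_castLE hrm, ?_⟩
    have h1 := mul_nonpos_of_nonpos_of_nonneg hneg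
      (by positivity : 0 ≤ W ^ (r + 1 - 1) * X)
    exact h1.trans (tS_nonneg _ _ _ _ _)
  by_contra hcon
  push Not at hcon
  set M : ℝ := (cc m n (r + 1) - ε) * (W ^ (r + 1 - 1) * X) with hM
  -- the normalised truncated counts
  set f : Fin m → ℕ → ℝ := fun i c =>
    min (cnt (F i) (T + a i + c * w) (T + a i + (c + 1) * w) : ℝ) K / K with hf
  have hf0 : ∀ i c, 0 ≤ f i c := fun i c => div_nonneg (le_min (Nat.cast_nonneg _) hK0.le) hK0.le
  have hf1 : ∀ i c, f i c ≤ 1 := fun i c => (div_le_one hK0).mpr (min_le_right _ _)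
  have hfc : ∀ i c, K * f i c ≤ (cnt (F i) (T + a i + c * w) (T + a i + (c + 1) * w) : ℝ) := by
    intro i c
    simp only [hf]
    rw [mul_div_cancel₀ _ hK0.ne']
    exact min_le_left _ _
  have hfs : ∀ i, (p - 2 * e) * N ≤ ∑ c ∈ range N, f i c := by
    intro i
    have hai := ha i
    have h9 : T ^ (1 + d) ≤ T ^ (1 + d0) :=
      Real.rpow_le_rpow_of_exponent_le (by linarith) (by linarith)
    have h := hci i T (hTT2 i) (a i) hai.1 (hai.2.trans h9) N hN1 hN2
    simp only [hf]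
    rw [← Finset.sum_div, le_div_iff₀ hK0]
    refine le_trans ?_ h
    rw [← p_eq, hK]
    have h1 : (p - 2 * e) * (1 + e) ≤ p - e := by
      have h2 : p * e ≤ 1 * e := mul_le_mul_of_nonneg_right hp1 he0.le
      have h3 : 0 ≤ e * e := by positivity
      have h4 : (p - 2 * e) * (1 + e) = p - 2 * e + p * e - 2 * (e * e) := by ring
      rw [h4]; linarith
    have h5 : (0 : ℝ) ≤ g * N := by positivity
    calc (p - 2 * e) * N * ((1 + e) * g) = (p - 2 * e) * (1 + e) * (g * N) := by ring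
      _ ≤ (p - e) * (g * N) := mul_le_mul_of_nonneg_right h1 h5
  -- the blocks
  set B : Fin m → ℕ → ℝ := fun i t => ∑ c ∈ blk N J t, f i c with hB
  have hB0 : ∀ i t, 0 ≤ B i t := fun i t => Finset.sum_nonneg fun c _ => hf0 i c
  have hB1 : ∀ i t, B i t ≤ J := by
    intro i t
    calc B i t ≤ ∑ c ∈ blk N J t, (1 : ℝ) := Finset.sum_le_sum fun c _ => hf1 i c
      _ = (blk N J t).card := by simp
      _ ≤ J := by exact_mod_cast blk_card N J t
  have hconv : ∀ t, (J : ℝ) ^ (r + 1) * (b * ∑ i, B i t / J - A) ≤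
      ∑ I ∈ (univ : Finset (Fin m)).powersetCard (r + 1), ∏ i ∈ I, B i t := by
    intro t
    have h1 := symm_ineq (univ : Finset (Fin m)) (fun i => B i t / J)
      (fun i _ => div_nonneg (hB0 i t) hJ0.le) (fun i _ => (div_le_one hJ0).mpr (hB1 i t)) r n
    have h2 : (n.choose (r + 1) : ℝ) + (∑ i, B i t / J - n) * n.choose r = b * ∑ i, B i t / J - A := by
      rw [hA, hb]; ring
    rw [h2] at h1
    have h3 : ∑ I ∈ (univ : Finset (Fin m)).powersetCard (r + 1), ∏ i ∈ I, B i t =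
        (J : ℝ) ^ (r + 1) * es (univ : Finset (Fin m)) (fun i => B i t / J) (r + 1) := by
      unfold es
      rw [Finset.mul_sum]
      apply Finset.sum_congr rfl
      intro I hI
      rw [Finset.mem_powersetCard] at hI
      rw [← hI.2, ← Finset.prod_const, ← Finset.prod_mul_distrib]
      apply Finset.prod_congr rfl
      intro i _
      field_simp
    rw [h3]
    exact mul_le_mul_of_nonneg_left h1 (by positivity)
  -- the tuples
  have htup : ∀ I ∈ (univ : Finset (Fin m)).powersetCard (r + 1),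
      K ^ (r + 1) * ∑ t ∈ range (N + J), ∏ i ∈ I, B i t ≤ ((J : ℝ) + 1) * M := by
    intro I hI
    rw [Finset.mem_powersetCard] at hI
    have hmono : StrictMono (fun j => I.orderEmbOfFin hI.2 j) := (I.orderEmbOfFin hI.2).strictMono
    have h1 := hcon (fun j => I.orderEmbOfFin hI.2 j) hmono
    have h2 := blk_tuples (r := r + 1) (by omega) (F := fun j => F (I.orderEmbOfFin hI.2 j))
      (fun j => hF _) (a := fun j => a (I.orderEmbOfFin hI.2 j)) (T := T) (H := H) (g := g) (W := W)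
      hT10 (fun j => (ha _).1) hg0 (N := N) (J := J) hNle hJW
    refine le_trans ?_ (h2.trans (mul_le_mul_of_nonneg_left h1.le (by positivity)))
    rw [Finset.mul_sum]
    apply Finset.sum_le_sum
    intro t _
    rw [prod_emb hI.2]
    have h3 : K ^ (r + 1) = ∏ _j : Fin (r + 1), K := by
      rw [Finset.prod_const, Finset.card_univ, Fintype.card_fin]
    rw [h3, ← Finset.prod_mul_distrib]
    apply Finset.prod_le_prod
    · intro j _
      exact mul_nonneg hK0.le (hB0 _ _)
    · intro j _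
      simp only [hB]
      rw [Finset.mul_sum]
      apply Finset.sum_le_sum
      intro c _
      exact hfc _ c
  -- summation
  have htot : K ^ (r + 1) * ((J : ℝ) ^ (r + 1) * (b * (m * ((p - 2 * e) * N)) - A * (N + J))) ≤
      Cm * (((J : ℝ) + 1) * M) := by
    have h1 : ∑ t ∈ range (N + J), (J : ℝ) ^ (r + 1) * (b * ∑ i, B i t / J - A) ≤
        ∑ t ∈ range (N + J), ∑ I ∈ (univ : Finset (Fin m)).powersetCard (r + 1), ∏ i ∈ I, B i t :=
      Finset.sum_le_sum fun t _ => hconv t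
    have h2 : K ^ (r + 1) * ∑ t ∈ range (N + J),
        ∑ I ∈ (univ : Finset (Fin m)).powersetCard (r + 1), ∏ i ∈ I, B i t ≤
        Cm * (((J : ℝ) + 1) * M) := by
      rw [Finset.sum_comm, Finset.mul_sum]
      refine (Finset.sum_le_sum htup).trans ?_
      rw [Finset.sum_const, Finset.card_powersetCard, Finset.card_univ, Fintype.card_fin, nsmul_eq_mul]
    refine le_trans ?_ h2
    apply mul_le_mul_of_nonneg_left _ (by positivity)
    refine le_trans ?_ h1
    rw [← Finset.mul_sum]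
    apply mul_le_mul_of_nonneg_left _ (by positivity)
    rw [Finset.sum_sub_distrib, Finset.sum_const, Finset.card_range, nsmul_eq_mul, ← Finset.mul_sum,
      Finset.sum_comm]
    have h3 : (m : ℝ) * ((p - 2 * e) * N) ≤ ∑ i, ∑ t ∈ range (N + J), B i t / J := by
      have h4 : ∀ i : Fin m, (p - 2 * e) * N ≤ ∑ t ∈ range (N + J), B i t / J := by
        intro i
        rw [← Finset.sum_div, le_div_iff₀ hJ0]
        simp only [hB]
        rw [blk_sum]
        have := mul_le_mul_of_nonneg_left (hfs i) hJ0.le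
        linarith
      calc (m : ℝ) * ((p - 2 * e) * N) = ∑ _i : Fin m, (p - 2 * e) * N := by
            rw [Finset.sum_const, Finset.card_univ, Fintype.card_fin, nsmul_eq_mul]
        _ ≤ _ := Finset.sum_le_sum fun i _ => h4 i
    have h5 := mul_le_mul_of_nonneg_left h3 hb0
    push_cast
    linarith
  -- conclusion
  rw [hcc] at hpos
  have hCpos : ε * Cm < C := by
    have h1 : ε < C / Cm := by linarith
    rwa [lt_div_iff₀ hCm0] at h1
  have hCle : C ≤ b * m := by
    have h1 : b * m * p ≤ b * m * 1 := mul_le_mul_of_nonneg_left hp1 (by positivity)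
    rw [hC]; linarith
  have hgN0 : 0 < g * N := lt_of_lt_of_le (mul_pos (by linarith) hX0) hgN
  have hN0 : (0 : ℝ) < N := by
    by_contra hcon
    push Not at hcon
    have : g * (N : ℝ) ≤ 0 := mul_nonpos_of_nonneg_of_nonpos hg0.le hcon
    linarith
  have hJN : (J : ℝ) ≤ e * N := by
    have h1 : (J : ℝ) * g ≤ W := by
      have : ((J : ℝ) + 1) * g = J * g + g := by ring
      linarith
    have h2 : X / 2 ≤ g * N := by
      have : X / 2 ≤ (1 - e) * X := by nlinarith
      linarith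
    have h3 : W ≤ e * (X / 2) := by
      have : e / 2 * X = e * (X / 2) := by ring
      linarith
    have h4 : e * (X / 2) ≤ e * (g * N) := mul_le_mul_of_nonneg_left h2 he0.le
    have h5 : (J : ℝ) * g ≤ (e * N) * g := by
      have : e * (g * N) = (e * N) * g := by ring
      linarith
    exact le_of_mul_le_mul_right h5 hg0
  have hbr : (C - e * c1) * N ≤ b * (m * ((p - 2 * e) * N)) - A * (N + J) := by
    have h1 : A * J ≤ A * (e * N) := mul_le_mul_of_nonneg_left hJN hA0
    have h2 : b * (m * ((p - 2 * e) * N)) - A * (N + J) = C * N - 2 * b * m * e * N - A * J := by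
      rw [hC]; ring
    have h3 : (C - e * c1) * N = C * N - 2 * b * m * e * N - A * (e * N) := by rw [hc1]; ring
    rw [h2, h3]
    linarith
  have hCe : 0 ≤ C - e * c1 := by
    have h1 : e * c1 ≤ e * D := by
      apply mul_le_mul_of_nonneg_left _ he0.le
      have : (0 : ℝ) ≤ (r + 2) * b * m := by positivity
      rw [hD]; linarith
    have h2 : 0 < ε * Cm := by positivity
    linarith
  have h1 : K ^ (r + 1) * ((J : ℝ) ^ (r + 1) * ((C - e * c1) * N)) ≤ Cm * (((J : ℝ) + 1) * M) := by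
    refine le_trans ?_ htot
    exact mul_le_mul_of_nonneg_left (mul_le_mul_of_nonneg_left hbr (by positivity)) (by positivity)
  -- `K J ≥ (1 - e) W`, `K N ≥ (1 - e) X`, `J ≥ (1 - e) (J + 1)`
  have hKJ : (1 - e) * W ≤ K * J := by
    have h2 : (J : ℝ) * g ≤ J * K := mul_le_mul_of_nonneg_left hgK hJ0.le
    have h3 : W ≤ J * g + 2 * g := by linarith
    have h4 : (1 - e) * W = W - e * W := by ring
    rw [h4]
    linarith
  have hKN : (1 - e) * X ≤ K * N := by
    refine hgN.trans (mul_le_mul_of_nonneg_right hgK hN0.le)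
  have hJJ : (1 - e) * ((J : ℝ) + 1) ≤ J := by
    have h2 : 3 * g ≤ e * ((J : ℝ) + 2) * g := by
      have := mul_le_mul_of_nonneg_left hJW2 he0.le
      linarith
    have h3 : 3 ≤ e * ((J : ℝ) + 2) := le_of_mul_le_mul_right h2 hg0
    have h4 : (1 - e) * ((J : ℝ) + 1) = J + 1 - e * (J + 2) + e := by ring
    rw [h4]; linarith
  have h1e : 0 ≤ 1 - e := by linarith
  have h2 : ((1 - e) * W) ^ r * ((1 - e) * X) * ((1 - e) * ((J : ℝ) + 1)) ≤
      (K * J) ^ r * (K * N) * J := by
    apply mul_le_mul _ hJJ (by positivity) (by positivity)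
    apply mul_le_mul _ hKN (by positivity) (by positivity)
    exact pow_le_pow_left₀ (by positivity) hKJ r
  have h3 : ((1 - e) * W) ^ r * ((1 - e) * X) * ((1 - e) * ((J : ℝ) + 1)) * (C - e * c1) ≤
      Cm * (((J : ℝ) + 1) * M) := by
    refine le_trans (mul_le_mul_of_nonneg_right h2 hCe) (le_trans (le_of_eq ?_) h1)
    rw [mul_pow, pow_succ K r, pow_succ (J : ℝ) r]
    ring
  have hJ10 : (0 : ℝ) < (J : ℝ) + 1 := by linarith
  have h4 : (1 - e) ^ (r + 2) * (C - e * c1) * (W ^ r * X) ≤ (C - ε * Cm) * (W ^ r * X) := by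
    have h5 : ((J : ℝ) + 1) * ((1 - e) ^ (r + 2) * (C - e * c1) * (W ^ r * X)) ≤
        ((J : ℝ) + 1) * ((C - ε * Cm) * (W ^ r * X)) := by
      have h6 : Cm * (((J : ℝ) + 1) * M) = ((J : ℝ) + 1) * ((C - ε * Cm) * (W ^ r * X)) := by
        rw [hM, hcc, Nat.add_sub_cancel]
        field_simp
      rw [← h6]
      refine le_trans (le_of_eq ?_) h3
      rw [mul_pow, pow_add (1 - e) r 2]
      ring
    exact le_of_mul_le_mul_left h5 hJ10
  have h5 : (1 - e) ^ (r + 2) * (C - e * c1) ≤ C - ε * Cm :=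
    le_of_mul_le_mul_right h4 (by positivity)
  have h6 : 1 - (r + 2) * e ≤ (1 - e) ^ (r + 2) := by
    have := one_add_mul_le_pow (by linarith : (-2 : ℝ) ≤ -e) (r + 2)
    push_cast at this
    have h7 : (1 + -e) = 1 - e := by ring
    rw [h7] at this
    linarith
  have h7 := mul_le_mul_of_nonneg_right h6 hCe
  have h8 : (1 - (r + 2) * e) * (C - e * c1) = C - e * c1 - (r + 2) * e * C + (r + 2) * (e * e) * c1 := by
    ring
  have h9 : (r + 2) * e * C ≤ (r + 2) * e * (b * m) := mul_le_mul_of_nonneg_left hCle (by positivity)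
  have h10 : 0 ≤ (r + 2) * (e * e) * c1 := by positivity
  have h11 : e * D = e * c1 + (r + 2) * e * (b * m) + e := by rw [hD]; ring
  have h12 : 0 < ε * Cm := by positivity
  linarith

/-! ### The constants -/

lemma cc_pos {m r : ℕ} (hr : 1 ≤ r) (hrm : r ≤ m) (h : (r : ℝ) - 1 < p * m) : 0 < cc m (r - 1) r := by
  obtain ⟨r, rfl⟩ : ∃ r', r = r' + 1 := ⟨r - 1, by omega⟩
  unfold cc
  rw [Nat.add_sub_cancel, Nat.choose_succ_self, Nat.choose_self]
  have h1 : (0 : ℝ) < m.choose (r + 1) := by exact_mod_cast Nat.choose_pos hrm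
  push_cast at h ⊢
  apply div_pos _ h1
  linarith

lemma cc_lim (r : ℕ) {ε : ℝ} (hε : 0 < ε) : ∃ m₀ : ℕ, ∀ m : ℕ, m₀ ≤ m →
    r ≤ m ∧ p ^ r - ε ≤ cc m ⌊p * m⌋₊ r := by
  have hp0 : 0 < p := by linarith [p_num]
  have ht : Tendsto (fun m : ℕ => (p - r / (m : ℝ)) ^ r) atTop (𝓝 ((p - 0) ^ r)) := by
    apply Tendsto.pow
    exact tendsto_const_nhds.sub (tendsto_const_div_atTop_nhds_zero_nat (r : ℝ))
  rw [sub_zero] at ht
  have h1 := ht.eventually (lt_mem_nhds (by linarith : p ^ r - ε < p ^ r))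
  obtain ⟨m1, hm1⟩ := eventually_atTop.1 h1
  obtain ⟨m2, hm2⟩ := exists_nat_ge ((r : ℝ) / p)
  refine ⟨max (max m1 m2) (r + 1), fun m hm => ?_⟩
  have hmr : r + 1 ≤ m := (le_max_right _ _).trans hm
  have hmm1 : m1 ≤ m := ((le_max_left _ _).trans (le_max_left _ _)).trans hm
  have hmm2 : m2 ≤ m := ((le_max_right _ _).trans (le_max_left _ _)).trans hm
  refine ⟨by omega, (hm1 m hmm1).le.trans ?_⟩
  have hm0 : (0 : ℝ) < m := by
    have : 0 < m := by omega
    exact_mod_cast this
  have hpm : (r : ℝ) ≤ p * m := by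
    have h2 : (r : ℝ) / p ≤ m := hm2.trans (by exact_mod_cast hmm2)
    rw [div_le_iff₀ hp0] at h2
    linarith
  set n : ℕ := ⌊p * m⌋₊ with hn
  have hn1 : (n : ℝ) ≤ p * m := Nat.floor_le (by positivity)
  have hn2 : p * m < n + 1 := Nat.lt_floor_add_one _
  have hCm0 : (0 : ℝ) < m.choose r := by exact_mod_cast Nat.choose_pos (by omega : r ≤ m)
  have h2 : (n.choose r : ℝ) / m.choose r ≤ cc m n r := by
    unfold cc
    apply div_le_div_of_nonneg_right _ hCm0.le
    have : 0 ≤ (p * m - n) * (n.choose (r - 1) : ℝ) := mul_nonneg (by linarith) (Nat.cast_nonneg _)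
    linarith
  refine le_trans ?_ h2
  rw [le_div_iff₀ hCm0]
  have hfac : (0 : ℝ) < (r.factorial : ℝ) := by exact_mod_cast Nat.factorial_pos r
  have h3 : (r.factorial : ℝ) * (m.choose r : ℝ) ≤ (m : ℝ) ^ r := by
    have := Nat.descFactorial_le_pow m r
    rw [Nat.descFactorial_eq_factorial_mul_choose] at this
    exact_mod_cast this
  have h4 : (p * m - r) ^ r ≤ (r.factorial : ℝ) * (n.choose r : ℝ) := by
    have := Nat.pow_sub_le_descFactorial n r
    rw [Nat.descFactorial_eq_factorial_mul_choose] at this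
    have h5 : (((n + 1 - r : ℕ) : ℝ)) ^ r ≤ (r.factorial : ℝ) * (n.choose r : ℝ) := by
      exact_mod_cast this
    refine le_trans ?_ h5
    apply pow_le_pow_left₀ (by linarith)
    have h6 : r ≤ n + 1 := by
      have : (r : ℝ) < n + 1 := by linarith
      exact_mod_cast this.le
    rw [Nat.cast_sub h6]
    push_cast
    linarith
  have h5 : (0 : ℝ) ≤ (p - r / (m : ℝ)) ^ r := by
    apply pow_nonneg
    rw [sub_nonneg, div_le_iff₀ hm0]
    exact hpm
  have h6 : (r.factorial : ℝ) * ((p - r / (m : ℝ)) ^ r * (m.choose r : ℝ)) ≤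
      (r.factorial : ℝ) * (n.choose r : ℝ) := by
    calc (r.factorial : ℝ) * ((p - r / (m : ℝ)) ^ r * (m.choose r : ℝ)) =
          (p - r / (m : ℝ)) ^ r * ((r.factorial : ℝ) * (m.choose r : ℝ)) := by ring
      _ ≤ (p - r / (m : ℝ)) ^ r * (m : ℝ) ^ r := mul_le_mul_of_nonneg_left h3 h5
      _ = (p * m - r) ^ r := by
          rw [← mul_pow]
          congr 1
          field_simp
      _ ≤ _ := h4
  exact le_of_mul_le_mul_left h6 hfac

/-- **Main theorem.** No hypothesis is assumed. -/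
theorem result :
    (∀ m n r : ℕ, 1 ≤ r → r ≤ m → ∀ ε : ℝ, 0 < ε → ∃ L δ η : ℝ, 0 < L ∧ 0 < δ ∧ δ < 1 ∧ 0 < η ∧
      ∀ (q : Fin m → ℕ) (_ : ∀ i, NeZero (q i)) (χ : ∀ i, DirichletCharacter ℂ (q i)),
        (∀ i, (χ i).IsPrimitive) → ∃ T₀ : ℝ, ∀ T : ℝ, T₀ ≤ T → ∀ H : ℝ, T ^ (1 - δ) ≤ H → H ≤ T →
        ∀ a : Fin m → ℝ, (∀ i, 0 ≤ a i ∧ a i ≤ T ^ (1 + δ)) →
        ∀ W : ℝ, L ≤ W → W ≤ η * (H / (2 * Real.pi) * Real.log T) →
          ∃ k : Fin r → Fin m, StrictMono k ∧
            (cc m n r - ε) * (W ^ (r - 1) * (H / (2 * Real.pi) * Real.log T)) ≤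
              tupleSum (fun j => (χ (k j)).LFunction) (fun j => a (k j)) T H W) ∧
    (∀ r : ℕ, 1 ≤ r → ∀ ε : ℝ, 0 < ε → ∃ m : ℕ, ∃ L δ η T₀ : ℝ, 0 < L ∧ 0 < δ ∧ δ < 1 ∧ 0 < η ∧
      ∀ T : ℝ, T₀ ≤ T → ∀ H : ℝ, T ^ (1 - δ) ≤ H → H ≤ T →
        ∀ a : Fin m → ℝ, (∀ i, 0 ≤ a i ∧ a i ≤ T ^ (1 + δ)) →
        ∀ W : ℝ, L ≤ W → W ≤ η * (H / (2 * Real.pi) * Real.log T) →
          ∃ k : Fin r → Fin m, StrictMono k ∧
            (p ^ r - ε) * (W ^ (r - 1) * (H / (2 * Real.pi) * Real.log T)) ≤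
              tupleSum (fun _ => riemannZeta) (fun j => a (k j)) T H W) ∧
    (∀ r m : ℕ, 1 ≤ r → r ≤ m → (r : ℝ) - 1 < p * m → 0 < cc m (r - 1) r) ∧
    0.672497 ≤ p := by
  refine ⟨fun m n r hr hrm ε hε => ?_, fun r hr ε hε => ?_, fun r m hr hrm h => cc_pos hr hrm h, p_num⟩
  · obtain ⟨L, δ, η, hL, hδ, hδ1, hη, h⟩ := main m n r hr hrm hε
    refine ⟨L, δ, η, hL, hδ, hδ1, hη, fun q hq χ hχ => ?_⟩
    have hgood : ∀ i, GoodL (χ i).LFunction := fun i => by
      have := hq i
      exact H370.good_dirichlet (χ i) (hχ i)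
    obtain ⟨T₀, hT₀, h1⟩ := h (fun i => (χ i).LFunction) hgood
    refine ⟨T₀, fun T hT H hH1 hH2 a ha W hW1 hW2 => ?_⟩
    obtain ⟨k, hk, h2⟩ := h1 T hT H hH1 hH2 a ha W hW1 hW2
    refine ⟨k, hk, ?_⟩
    rw [tupleSum_eq (fun j => hgood _) (by linarith) (fun j => (ha _).1)]
    exact h2
  · obtain ⟨m, hm⟩ := cc_lim r (half_pos hε)
    obtain ⟨hrm, hcc⟩ := hm m le_rfl
    obtain ⟨L, δ, η, hL, hδ, hδ1, hη, h⟩ := main m ⌊p * m⌋₊ r hr hrm (half_pos hε)
    obtain ⟨T₀, hT₀, h1⟩ := h (fun _ => riemannZeta) (fun _ => H370.good_zeta)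
    refine ⟨m, L, δ, η, T₀, hL, hδ, hδ1, hη, fun T hT H hH1 hH2 a ha W hW1 hW2 => ?_⟩
    obtain ⟨k, hk, h2⟩ := h1 T hT H hH1 hH2 a ha W hW1 hW2
    refine ⟨k, hk, ?_⟩
    rw [tupleSum_eq (fun j => H370.good_zeta) (by linarith) (fun j => (ha _).1)]
    refine le_trans ?_ h2
    apply mul_le_mul_of_nonneg_right (by linarith)
    have hT10 : 10 ≤ T := hT₀.trans hT
    have hlog : 0 ≤ Real.log T := Real.log_nonneg (by linarith)
    have hH0 : 0 ≤ H := (Real.rpow_nonneg (by linarith : (0 : ℝ) ≤ T) _).trans hH1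
    have hW0 : 0 ≤ W := hL.le.trans hW1
    have := Real.pi_pos
    positivity

end Pool.Agent.Results.MP_67227b_nt.LevelsAmongShifts
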