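import Pool.Agent.Results.MP_67227b_nt.PatternsInTranslates
import Pool.Agent.H370R2.Expl1

/-!
# Zeros in approximate arithmetic progression, at every scale, unconditionally

No hypothesis is assumed.  Let `0 < r ≤ 9/10`.  There is an integer `m` such that for all large `T` and
every `s ≤ κ T log T` there is `1 ≤ d < m` for which a positive proportion of the expected number of
triples `(γ, γ', γ'')` of ordinates of simple zeros of zeta on the critical line satisfies
`|(γ - γ') log T / 2π - d s| < r` and `|(γ' - γ'') log T / 2π - d s| < r`.  The same holds for every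
primitive Dirichlet L-function, in all the intervals `(T, T + H]`, `T ^ h ≤ H ≤ T`, if `c h < 2`
(for instance for `h ≥ 0.56`).

Idea of the proof.  By the trace inequality with the Montgomery-Taylor kernel the union of the
intervals of length `r` mean spacings centred at the simple critical zeros has a positive lower
density; the theorem of Roth (from the corners theorem) is used in the progressions with difference
`s`.
-/

open Filter Topology Complex MeasureTheory

namespace Pool.Agent.Results.MP_67227b_nt.ProgressionsOfZeros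

/-- the nontrivial zeros of `F` with ordinate in `(T₁, T₂]` -/
def zeros (F : ℂ → ℂ) (T₁ T₂ : ℝ) : Set ℂ :=
  {s : ℂ | F s = 0 ∧ 0 < s.re ∧ s.re < 1 ∧ T₁ < s.im ∧ s.im ≤ T₂}

/-- `x` is the ordinate in `(T₁, T₂]` of a simple zero of `F` on the critical line -/
def IsSimpleOrd (F : ℂ → ℂ) (T₁ T₂ x : ℝ) : Prop :=
  (1 / 2 + x * I : ℂ) ∈ zeros F T₁ T₂ ∧ analyticOrderNatAt F (1 / 2 + x * I : ℂ) = 1

/-- the number of the triples of ordinates in `(T₁, T₂]` of simple critical zeros of `F` that are, up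
to `r`, in arithmetic progression with difference `s`, in units of `2π / log τ` -/
noncomputable def AP (F : ℂ → ℂ) (τ T₁ T₂ s r : ℝ) : ℕ :=
  {p : ℝ × ℝ × ℝ | IsSimpleOrd F T₁ T₂ p.1 ∧ IsSimpleOrd F T₁ T₂ p.2.1 ∧
    IsSimpleOrd F T₁ T₂ p.2.2 ∧
    |(p.1 - p.2.1) * Real.log τ / (2 * Real.pi) - s| < r ∧
    |(p.2.1 - p.2.2) * Real.log τ / (2 * Real.pi) - s| < r}.ncard

/-- the Montgomery-Taylor constant -/
noncomputable def cMT : ℝ :=
  Real.sqrt 2 * Real.tan (1 / Real.sqrt 2) / (1 + Real.tan (1 / Real.sqrt 2) / Real.sqrt 2)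

/-- the mean square of the Montgomery-Taylor window, `1.0062...` -/
noncomputable def R0 : ℝ :=
  (1 + Real.sin (Real.sqrt 2) / Real.sqrt 2) / (4 * Real.sin (1 / Real.sqrt 2) ^ 2)

/-- the constant for intervals of length `T^h`; `c 1 = cMT⁻¹ = 1.3274...` -/
noncomputable def c (h : ℝ) : ℝ := R0 / h + h * (cMT⁻¹ - R0)

lemma simple_iff (F : ℂ → ℂ) (T₁ T₂ x : ℝ) :
    IsSimpleOrd F T₁ T₂ x ↔ PatternsInTranslates.IsSimpleOrd F T₁ T₂ x := Iff.rfl

lemma ord_fin {F : ℂ → ℂ} {T₁ T₂ : ℝ} (hfin : (zeros F T₁ T₂).Finite) :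
    {x : ℝ | IsSimpleOrd F T₁ T₂ x}.Finite := by
  refine Set.Finite.of_finite_image (f := fun x : ℝ => (1 / 2 + x * I : ℂ)) (hfin.subset ?_) ?_
  · rintro s ⟨x, hx, rfl⟩
    exact hx.1
  · intro x _ y _ hxy
    have := congrArg Complex.im hxy
    simpa using this

lemma AP_finite {F : ℂ → ℂ} {T₁ T₂ : ℝ} (hfin : (zeros F T₁ T₂).Finite) (τ s r : ℝ) :
    {p : ℝ × ℝ × ℝ | IsSimpleOrd F T₁ T₂ p.1 ∧ IsSimpleOrd F T₁ T₂ p.2.1 ∧
    IsSimpleOrd F T₁ T₂ p.2.2 ∧
    |(p.1 - p.2.1) * Real.log τ / (2 * Real.pi) - s| < r ∧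
    |(p.2.1 - p.2.2) * Real.log τ / (2 * Real.pi) - s| < r}.Finite := by
  have h := ord_fin hfin
  refine (h.prod (h.prod h)).subset ?_
  rintro ⟨x, y, z⟩ ⟨h1, h2, h3, -, -⟩
  exact ⟨h1, h2, h3⟩

/-- the common final step -/
lemma core {F : ℂ → ℂ} {τ T₁ H p r δ : ℝ} (hfin : (zeros F T₁ (T₁ + H)).Finite) (hτ : 1 < τ)
    (hH : 0 < H) (hr : 0 < r) (hδ : 0 < δ) (S : Finset ℝ)
    (hS : ∀ x ∈ S, IsSimpleOrd F T₁ (T₁ + H) x)
    (hU : r * p * H ≤
      (volume (Pool.Agent.W201.UU (r * (2 * Real.pi / Real.log τ) / 2) S)).toReal)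
    (hκ : 1 / 2 + r * (2 * Real.pi / Real.log τ) / H ≤ 1) (hδp : 4 * δ ≤ r * p) {m : ℕ}
    (hm0 : 1 ≤ m) (hm : cornersTheoremBound (δ / 3) ≤ m) {s : ℝ} (hs : 0 ≤ s)
    (hsD : m * s ≤ 1 / (4 * Real.pi) * (H * Real.log τ)) :
    ∃ d : ℕ, 1 ≤ d ∧ d < m ∧ δ / (r * m ^ 2) * (H / (2 * Real.pi) * Real.log τ) ≤
      (AP F τ T₁ (T₁ + H) (d * s) r : ℝ) := by
  classical
  have hpi := Real.pi_pos
  have hlog : 0 < Real.log τ := Real.log_pos hτ
  set σ : ℝ := 2 * Real.pi / Real.log τ with hσ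
  have hσ0 : 0 < σ := by positivity
  have hS' : ∀ x ∈ S, T₁ ≤ x ∧ x ≤ T₁ + H := by
    intro x hx
    have h1 := (hS x hx).1
    have him : (1 / 2 + (x : ℂ) * I).im = x := by simp
    have h2 := h1.2.2.2.1
    have h3 := h1.2.2.2.2
    rw [him] at h2 h3
    exact ⟨h2.le, h3⟩
  obtain ⟨d, hd1, hd2, hd3⟩ := Pool.Agent.TH300.ZS.roth_fin (s := s * σ) (κ := 1 / 2) hσ0 hH hr hδ
    hS' hU hκ hδp hm0 hm (by positivity) (by
      have e : (m : ℝ) * (s * σ) = m * s * σ := by ring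
      rw [e]
      have h1 := mul_le_mul_of_nonneg_right hsD hσ0.le
      have e2 : 1 / (4 * Real.pi) * (H * Real.log τ) * σ = 1 / 2 * H := by
        rw [hσ]; field_simp; ring
      linarith)
  refine ⟨d, hd1, hd2, ?_⟩
  have e1 : (H / σ) = H / (2 * Real.pi) * Real.log τ := by rw [hσ]; field_simp
  rw [e1] at hd3
  refine hd3.trans ?_
  have h4 : Pool.Agent.TH300.ZS.TT S (d * (s * σ)) (r * σ) ≤ AP F τ T₁ (T₁ + H) (d * s) r := by
    unfold Pool.Agent.TH300.ZS.TT AP
    rw [← Set.ncard_coe_finset]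
    apply Set.ncard_le_ncard _ (AP_finite hfin τ (d * s) r)
    rintro ⟨x, y, z⟩ hx
    rw [Finset.mem_coe, Finset.mem_filter, Finset.mem_product, Finset.mem_product] at hx
    obtain ⟨⟨g1, g2, g3⟩, g4, g5⟩ := hx
    have key : ∀ u v : ℝ, |u - v - d * (s * σ)| < r * σ →
        |(u - v) * Real.log τ / (2 * Real.pi) - d * s| < r := by
      intro u v h
      have e : u - v - d * (s * σ) = ((u - v) * Real.log τ / (2 * Real.pi) - d * s) * σ := by
        rw [hσ]; field_simp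
      rw [e, abs_mul, abs_of_pos hσ0] at h
      exact lt_of_mul_lt_mul_right h hσ0.le
    exact ⟨hS x g1, hS y g2, hS z g3, key _ _ g4, key _ _ g5⟩
  exact_mod_cast h4

lemma cMT_num : cMT⁻¹ ≤ 1.327503 := by
  have h1 : cMT⁻¹ = H370.cMTinv := H370.cMTinv_eq
  rw [h1]
  exact H370.Expl.cMTinv_num

lemma R0_num : 1.00611 ≤ R0 ∧ R0 ≤ 1.00614 := by
  obtain ⟨h1, h2⟩ := H370.Expl.exp_num
  rw [abs_le] at h1 h2
  set S : ℝ := Real.sqrt 2 * Real.sin (1 / Real.sqrt 2) with hS
  set Q : ℝ := Real.cos (1 / Real.sqrt 2) with hQ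
  have hs : Real.sqrt 2 ^ 2 = 2 := Real.sq_sqrt (by norm_num)
  have hs0 : Real.sqrt 2 ≠ 0 := by positivity
  have h3 : Real.sin (Real.sqrt 2) / Real.sqrt 2 = S * Q := by
    have e : Real.sqrt 2 = 2 * (1 / Real.sqrt 2) := by
      field_simp
      exact hs
    have e2 : Real.sin (Real.sqrt 2) = 2 * Real.sin (1 / Real.sqrt 2) * Q := by
      conv_lhs => rw [e]
      rw [Real.sin_two_mul]
    rw [e2, hS, div_eq_iff hs0]
    have : Real.sqrt 2 * Real.sin (1 / Real.sqrt 2) * Q * Real.sqrt 2 =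
        Real.sqrt 2 ^ 2 * Real.sin (1 / Real.sqrt 2) * Q := by ring
    rw [this, hs]
  have h4 : 4 * Real.sin (1 / Real.sqrt 2) ^ 2 = 2 * S ^ 2 := by
    rw [hS, mul_pow, hs]; ring
  unfold R0
  rw [h3, h4]
  have hSl : 0.918722 ≤ S := by norm_num at h2 ⊢; linarith [h2.1]
  have hSu : S ≤ 0.918729 := by norm_num at h2 ⊢; linarith [h2.2]
  have hQl : 0.760241 ≤ Q := by norm_num at h1 ⊢; linarith [h1.1]
  have hQu : Q ≤ 0.760246 := by norm_num at h1 ⊢; linarith [h1.2]
  have hS2 : 0 < 2 * S ^ 2 := by positivity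
  constructor
  · rw [le_div_iff₀ hS2]
    nlinarith
  · rw [div_le_iff₀ hS2]
    nlinarith

/-- **Zeros in approximate arithmetic progression, at every scale.** -/
theorem result :
    (∀ r : ℝ, 0 < r → r ≤ 9 / 10 → ∃ m : ℕ, ∃ c₀ κ T₀ : ℝ, 0 < c₀ ∧ 0 < κ ∧
      ∀ T : ℝ, T₀ ≤ T → ∀ s : ℝ, 0 ≤ s → s ≤ κ * (T * Real.log T) →
      ∃ d : ℕ, 1 ≤ d ∧ d < m ∧ c₀ * (T / (2 * Real.pi) * Real.log T) ≤
        (AP riemannZeta T 0 T (d * s) r : ℝ)) ∧
    (∀ (q : ℕ) [NeZero q] (χ : DirichletCharacter ℂ q), χ.IsPrimitive →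
      ∀ h : ℝ, 0 < h → h ≤ 1 → c h < 2 → ∀ r : ℝ, 0 < r → h * r ≤ 9 / 10 →
      ∃ m : ℕ, ∃ c₀ κ T₀ : ℝ, 0 < c₀ ∧ 0 < κ ∧
      ∀ T : ℝ, T₀ ≤ T → ∀ H : ℝ, T ^ h ≤ H → H ≤ T →
      ∀ s : ℝ, 0 ≤ s → s ≤ κ * (H * Real.log T) →
      ∃ d : ℕ, 1 ≤ d ∧ d < m ∧ c₀ * (H / (2 * Real.pi) * Real.log T) ≤
        (AP (DirichletCharacter.LFunction χ) T T (T + H) (d * s) r : ℝ)) ∧
    (∀ h : ℝ, 0.56 ≤ h → h ≤ 1 → c h < 2) := by
  have hpi := Real.pi_pos
  refine ⟨?_, ?_, ?_⟩
  · intro r hr hr1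
    have hcn := H370.Expl.cMTinv_num
    norm_num at hcn
    set p : ℝ := 1 / 2 with hp
    set δ : ℝ := r * p / 4 with hδ
    have hδ0 : 0 < δ := by positivity
    set m : ℕ := cornersTheoremBound (δ / 3) + 1 with hm
    obtain ⟨T₀, hT₀, h⟩ := PatternsInTranslates.zeta_data (1 / 2) (by norm_num) (by norm_num)
    refine ⟨m, δ / (r * m ^ 2), 1 / (4 * Real.pi) / m, T₀, ?_, ?_, fun T hT s hs hs2 => ?_⟩
    · have : (0 : ℝ) < m := by rw [hm]; positivity
      positivity
    · have : (0 : ℝ) < m := by rw [hm]; positivity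
      positivity
    have hm0 : (0 : ℝ) < m := by rw [hm]; positivity
    obtain ⟨h1, h2, S, hS, hU⟩ := h T hT
    have hT10 : 10 ≤ T := hT₀.trans hT
    have hTp : 0 < T := by linarith
    have hsc := PatternsInTranslates.scale_le hr hr1 h2
    have h3 := core (F := riemannZeta) (τ := T) (T₁ := 0) (H := T) (p := p) (r := r) (δ := δ)
      (by rw [zero_add]; exact PatternsInTranslates.zeros_finite_zeta T)
      (by linarith) hTp hr hδ0 S (by rw [zero_add]; exact hS)
      ((mul_le_mul_of_nonneg_right (mul_le_mul_of_nonneg_left (by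
        rw [PatternsInTranslates.cMT_inv, hp]
        linarith) hr.le) hTp.le).trans (hU r hr hr1))
      (by
        have : r * (2 * Real.pi / Real.log T) / T ≤ 1 / 2 := by
          rw [div_le_iff₀ hTp]
          linarith
        linarith) (by rw [hδ]; linarith) (m := m) (by omega) (by omega) hs
      (by
        have := mul_le_mul_of_nonneg_left hs2 hm0.le
        refine this.trans (le_of_eq ?_)
        field_simp)
    simp only [zero_add] at h3
    exact h3
  · intro q _ χ hχ h hh hh1 hch r hr hr1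
    have hcc : c h = PatternsInTranslates.c h := rfl
    set p : ℝ := (2 - c h) / 2 with hp
    have hp0 : 0 < p := by rw [hp]; linarith
    set δ : ℝ := r * p / 4 with hδ
    have hδ0 : 0 < δ := by positivity
    set m : ℕ := cornersTheoremBound (δ / 3) + 1 with hm
    have hm0 : (0 : ℝ) < m := by rw [hm]; positivity
    obtain ⟨T₁, hT₁, h1⟩ := Pool.Agent.TH300.ZS.nbhd_asym (H370.good_dirichlet χ hχ) hh hh1 hp0
    rw [← PatternsInTranslates.c_eq hh, ← hcc] at h1
    have htop : Tendsto (fun T : ℝ => T ^ h) atTop atTop := tendsto_rpow_atTop hh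
    obtain ⟨T₂, hT₂⟩ := (htop.eventually_ge_atTop 2).exists_forall_of_atTop
    obtain ⟨T₃, hT₃⟩ := (Real.tendsto_log_atTop.eventually_ge_atTop
      (2 * Real.pi / h)).exists_forall_of_atTop
    refine ⟨m, δ / (r * m ^ 2), 1 / (4 * Real.pi) / m, max (max T₁ T₂) (max T₃ 10), by positivity,
      by positivity, fun T hTT H hH hHT s hs hs2 => ?_⟩
    have hTT1 : T₁ ≤ T := ((le_max_left _ _).trans (le_max_left _ _)).trans hTT
    have hTT2 := hT₂ T (((le_max_right _ _).trans (le_max_left _ _)).trans hTT)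
    have hTT3 := hT₃ T (((le_max_left _ _).trans (le_max_right _ _)).trans hTT)
    have hT10 : 10 ≤ T := ((le_max_right _ _).trans (le_max_right _ _)).trans hTT
    have hH2 : 2 ≤ H := hTT2.trans hH
    have hHpos : 0 < H := by linarith
    have hlog : 0 < Real.log T := by
      have : 0 < 2 * Real.pi / h := by positivity
      linarith
    obtain ⟨S, hS, hSU⟩ := h1 T hTT1 H hH hHT
    have hSo : ∀ x ∈ S, IsSimpleOrd (DirichletCharacter.LFunction χ) T (T + H) x := by
      intro x hx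
      obtain ⟨a1, a2, a3, a4⟩ := hS x hx
      rw [mul_comm] at a3 a4
      rw [simple_iff]
      exact ⟨by rw [PatternsInTranslates.zeros_eq]; exact a3, a4⟩
    have h5 : 2 * Real.pi / Real.log T ≤ h := by
      rw [div_le_iff₀ hlog]
      rw [div_le_iff₀ hh] at hTT3
      linarith
    have h6 : r * (2 * Real.pi / Real.log T) ≤ r * h := mul_le_mul_of_nonneg_left h5 hr.le
    refine core (F := DirichletCharacter.LFunction χ) (τ := T) (T₁ := T) (H := H) (p := p) (r := r)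
      (δ := δ) (PatternsInTranslates.zeros_finite χ hχ T (T + H) (by linarith)) (by linarith) hHpos
      hr hδ0 S hSo (by
        refine le_trans (le_of_eq ?_) (hSU r hr hr1)
        rw [hp]
        ring) ?_ (by rw [hδ]; linarith) (m := m) (by omega) (by omega) hs ?_
    · have : r * (2 * Real.pi / Real.log T) / H ≤ 1 / 2 := by
        rw [div_le_iff₀ hHpos]
        linarith
      linarith
    · have := mul_le_mul_of_nonneg_left hs2 hm0.le
      refine this.trans (le_of_eq ?_)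
      field_simp
  · intro h hh hh1
    obtain ⟨h1, h2⟩ := R0_num
    have h3 := cMT_num
    norm_num at h1 h2 h3 hh
    have h0 : 0 < h := by linarith
    have e : 2 - c h = (2 * h - R0 - (cMT⁻¹ - R0) * h ^ 2) / h := by
      unfold c
      field_simp
      ring
    have h4 : 0 < 2 - c h := by
      rw [e]
      apply div_pos _ h0
      have h5 : h ^ 2 ≤ 1 := by nlinarith
      nlinarith
    linarith

end Pool.Agent.Results.MP_67227b_nt.ProgressionsOfZeros
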